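import Pool.Agent.P.MP_6fabb2_lc.Defs
import Mathlib

-- part Pool.Agent.P.MP_6fabb2_lc.Rainbow
section

/-! The probabilistic solver for the rainbow Ramsey theorem: combinatorial part. -/

namespace Pool.Agent.P.MP_6fabb2_lc

/-- `F` codes a 2-bounded colouring of pairs. -/
def Valid (F : Set ℕ) : Prop :=
  (∀ x y : ℕ, x < y → ∃! z, spair (spair x y) z ∈ F) ∧
    (∀ z x₁ y₁ x₂ y₂ x₃ y₃ : ℕ, x₁ < y₁ → x₂ < y₂ → x₃ < y₃ →
      spair (spair x₁ y₁) z ∈ F → spair (spair x₂ y₂) z ∈ F → spair (spair x₃ y₃) z ∈ F →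
      (x₁ = x₂ ∧ y₁ = y₂) ∨ (x₁ = x₃ ∧ y₁ = y₃) ∨ (x₂ = x₃ ∧ y₂ = y₃))

def Same (F : Set ℕ) (x y u v : ℕ) : Prop :=
  ∃ z, spair (spair x y) z ∈ F ∧ spair (spair u v) z ∈ F

def Rainbow (F : Set ℕ) (A : Finset ℕ) : Prop :=
  ∀ x ∈ A, ∀ y ∈ A, ∀ u ∈ A, ∀ v ∈ A, x < y → u < v → Same F x y u v → x = u ∧ y = v

def Acc' (F : Set ℕ) (A : Finset ℕ) (x : ℕ) : Prop := (∀ a ∈ A, a < x) ∧ Rainbow F (insert x A)

def IsNth (p : ℕ → Prop) (k x : ℕ) : Prop :=
  p x ∧ ∃ B : Finset ℕ, B.card = k ∧ ∀ y, y ∈ B ↔ (y < x ∧ p y)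

def Run (F : Set ℕ) (Y : ℕ → ℕ) : ℕ → Finset ℕ → Prop
  | 0, A => A = ∅
  | s + 1, A' => ∃ A x, Run F Y s A ∧ IsNth (Acc' F A) (Y s) x ∧ A' = insert x A

def Alive (F : Set ℕ) (A : Finset ℕ) : Prop := ∀ n, ∃ x, n ≤ x ∧ Acc' F A x

lemma IsNth.lt_of_lt {p : ℕ → Prop} {k k' x x' : ℕ} (h : IsNth p k x) (h' : IsNth p k' x')
    (hx : x < x') : k < k' := by
  obtain ⟨px, B, hB, hBm⟩ := h
  obtain ⟨_, B', hB', hBm'⟩ := h'
  rw [← hB, ← hB']
  refine Finset.card_lt_card ⟨fun y hy => ?_, fun hc => ?_⟩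
  · rw [hBm] at hy; rw [hBm']; exact ⟨hy.1.trans hx, hy.2⟩
  · have := (hBm x).1 (hc ((hBm' x).2 ⟨hx, px⟩))
    exact lt_irrefl _ this.1

lemma IsNth.unique {p : ℕ → Prop} {k x x' : ℕ} (h : IsNth p k x) (h' : IsNth p k x') : x = x' := by
  rcases lt_trichotomy x x' with hx | hx | hx
  · exact absurd (h.lt_of_lt h' hx) (lt_irrefl _)
  · exact hx
  · exact absurd (h'.lt_of_lt h hx) (lt_irrefl _)

lemma IsNth.inj {p : ℕ → Prop} {k k' x : ℕ} (h : IsNth p k x) (h' : IsNth p k' x) : k = k' := by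
  obtain ⟨_, B, hB, hBm⟩ := h
  obtain ⟨_, B', hB', hBm'⟩ := h'
  rw [← hB, ← hB']
  congr 1; ext y; rw [hBm, hBm']

lemma exists_isNth {p : ℕ → Prop} (hp : ∀ n, ∃ x, n ≤ x ∧ p x) (k : ℕ) : ∃ x, IsNth p k x := by
  classical
  have hinf : {x | p x}.Infinite := by
    refine Set.infinite_of_forall_exists_gt fun n => ?_
    obtain ⟨x, hx, px⟩ := hp (n + 1)
    exact ⟨x, px, hx⟩
  refine ⟨Nat.nth p k, Nat.nth_mem_of_infinite hinf k,
    (Finset.range (Nat.nth p k)).filter p, ?_, fun y => by simp⟩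
  rw [← Nat.count_eq_card_filter_range, Nat.count_nth_of_infinite hinf]

lemma Run.unique {F : Set ℕ} {Y : ℕ → ℕ} : ∀ {s : ℕ} {A A' : Finset ℕ},
    Run F Y s A → Run F Y s A' → A = A'
  | 0, _, _, h, h' => h.trans h'.symm
  | _ + 1, _, _, ⟨_, _, h1, h2, h3⟩, ⟨_, _, h1', h2', h3'⟩ => by
    obtain rfl := Run.unique h1 h1'
    obtain rfl := h2.unique h2'
    rw [h3, h3']

lemma Run.card_rainbow {F : Set ℕ} {Y : ℕ → ℕ} : ∀ {s : ℕ} {A : Finset ℕ},
    Run F Y s A → A.card = s ∧ Rainbow F A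
  | 0, _, h => by
    obtain rfl : _ = ∅ := h
    exact ⟨rfl, fun x hx => absurd hx (by simp)⟩
  | _ + 1, _, ⟨A, x, h1, h2, h3⟩ => by
    subst h3
    refine ⟨?_, h2.1.2⟩
    rw [Finset.card_insert_of_notMem (fun hx => lt_irrefl _ (h2.1.1 x hx)),
      (Run.card_rainbow h1).1]

lemma Run.mono {F : Set ℕ} {Y : ℕ → ℕ} {s : ℕ} {A : Finset ℕ} (h : Run F Y s A) :
    ∀ {d : ℕ} {A' : Finset ℕ}, Run F Y (s + d) A' → A ⊆ A' ∧ ∀ x ∈ A', x ∉ A → s ≤ x
  | 0, _, h' => by
    obtain rfl := h.unique h'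
    exact ⟨Finset.Subset.refl _, fun x hx hx' => absurd hx hx'⟩
  | d + 1, _, ⟨B, x, h1, h2, h3⟩ => by
    subst h3
    obtain ⟨i1, i2⟩ := Run.mono h h1
    refine ⟨i1.trans (Finset.subset_insert _ _), fun y hy hy' => ?_⟩
    rcases Finset.mem_insert.mp hy with rfl | hy
    · have : B ⊆ Finset.range y := fun a ha => Finset.mem_range.mpr (h2.1.1 a ha)
      have := Finset.card_le_card this
      rw [(Run.card_rainbow h1).1, Finset.card_range] at this
      exact le_trans (Nat.le_add_right s d) this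
    · exact i2 y hy hy'

lemma Run.congr {F : Set ℕ} {Y Y' : ℕ → ℕ} : ∀ {s : ℕ} {A : Finset ℕ}, (∀ i < s, Y i = Y' i) →
    Run F Y s A → Run F Y' s A
  | 0, _, _, h => h
  | s + 1, _, hY, ⟨A, x, h1, h2, h3⟩ =>
    ⟨A, x, Run.congr (fun i hi => hY i (by omega)) h1, hY s (by omega) ▸ h2, h3⟩

/-- the output of the solver -/
def Out (F : Set ℕ) (Y : ℕ → ℕ) : Set ℕ := {n | ∃ s A, Run F Y s A ∧ n ∈ A}

lemma mem_out_iff {F : Set ℕ} {Y : ℕ → ℕ} {n : ℕ} {A : Finset ℕ} (h : Run F Y (n + 1) A) :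
    n ∈ Out F Y ↔ n ∈ A := by
  refine ⟨?_, fun hn => ⟨_, _, h, hn⟩⟩
  rintro ⟨s, A', h', hn⟩
  rcases le_total s (n + 1) with hs | hs
  · obtain ⟨d, hd⟩ := Nat.exists_eq_add_of_le hs
    rw [hd] at h
    exact (h'.mono h).1 hn
  · obtain ⟨d, hd⟩ := Nat.exists_eq_add_of_le hs
    rw [hd] at h'
    by_contra hc
    have := (h.mono h').2 n hn hc
    omega

lemma out_infinite {F : Set ℕ} {Y : ℕ → ℕ} (h : ∀ s, ∃ A, Run F Y s A) (n : ℕ) :
    ∃ m ∈ Out F Y, n < m := by
  obtain ⟨A, hA⟩ := h (n + 2)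
  by_contra hc
  push Not at hc
  have : A ⊆ Finset.range (n + 1) := fun a ha =>
    Finset.mem_range.mpr (Nat.lt_succ_of_le (hc a ⟨_, _, hA, ha⟩))
  have := Finset.card_le_card this
  rw [hA.card_rainbow.1, Finset.card_range] at this
  omega

lemma out_rainbow {F : Set ℕ} {Y : ℕ → ℕ} (h : ∀ s, ∃ A, Run F Y s A) :
    ∀ x ∈ Out F Y, ∀ y ∈ Out F Y, ∀ u ∈ Out F Y, ∀ v ∈ Out F Y, x < y → u < v →
      ∀ z, spair (spair x y) z ∈ F → spair (spair u v) z ∈ F → x = u ∧ y = v := by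
  intro x hx y hy u hu v hv hxy huv z h1 h2
  obtain ⟨A, hA⟩ := h (x + y + u + v + 1)
  have key : ∀ t ∈ Out F Y, t ≤ x + y + u + v → t ∈ A := by
    intro t ht hle
    obtain ⟨B, hB⟩ := h (t + 1)
    obtain ⟨d, hd⟩ := Nat.exists_eq_add_of_le (show t + 1 ≤ x + y + u + v + 1 by omega)
    rw [hd] at hA
    exact (hB.mono hA).1 ((mem_out_iff hB).1 ht)
  exact hA.card_rainbow.2 x (key x hx (by omega)) y (key y hy (by omega)) u (key u hu (by omega))
    v (key v hv (by omega)) hxy huv ⟨z, h1, h2⟩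

lemma alive_empty (F : Set ℕ) : Alive F ∅ := by
  intro n
  refine ⟨n, le_rfl, fun a ha => absurd ha (by simp), ?_⟩
  intro x hx y hy u _ v _ hxy
  simp only [insert_empty_eq, Finset.mem_singleton] at hx hy
  omega

lemma exists_death {F : Set ℕ} {Y : ℕ → ℕ} (h : ¬ ∀ s, ∃ A, Run F Y s A) :
    ∃ s A x, Run F Y s A ∧ Alive F A ∧ IsNth (Acc' F A) (Y s) x ∧ ¬ Alive F (insert x A) := by
  by_contra hc
  push Not at hc
  apply h
  have : ∀ s, ∃ A, Run F Y s A ∧ Alive F A := by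
    intro s
    induction s with
    | zero => exact ⟨∅, rfl, alive_empty F⟩
    | succ s ih =>
      obtain ⟨A, h1, h2⟩ := ih
      obtain ⟨x, hx⟩ := exists_isNth h2 (Y s)
      exact ⟨insert x A, ⟨A, x, h1, hx, rfl⟩, hc s A x h1 h2 hx⟩
  exact fun s => (this s).imp fun _ h => h.1

lemma same_bound {F : Set ℕ} (hF : Valid F) {x y : ℕ} (hxy : x < y) :
    ∃ b, ∀ u w, u < w → Same F u w x y → w < b := by
  obtain ⟨z, hz, hz'⟩ := hF.1 x y hxy
  by_cases h : ∃ u w, u < w ∧ Same F u w x y ∧ y < w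
  · obtain ⟨u, w, huw, ⟨z1, h1, h1'⟩, hw⟩ := h
    refine ⟨w + 1, fun u' w' huw' ⟨z2, h2, h2'⟩ => ?_⟩
    obtain rfl := hz' z1 h1'
    obtain rfl := hz' z2 h2'
    have := hF.2 _ x y u w u' w' hxy huw huw' hz h1 h2
    omega
  · push Not at h
    exact ⟨y + 1, fun u w huw hs => Nat.lt_succ_of_le (h u w huw hs)⟩

lemma Same.symm {F : Set ℕ} {x y u v : ℕ} (h : Same F x y u v) : Same F u v x y :=
  let ⟨z, h1, h2⟩ := h; ⟨z, h2, h1⟩

/-- At most `|A|` acceptable extensions are dead. -/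
lemma dead_card {F : Set ℕ} (hF : Valid F) {A : Finset ℕ} (hA : Alive F A) (B : Finset ℕ)
    (hB : ∀ x ∈ B, Acc' F A x ∧ ¬ Alive F (insert x A)) : B.card ≤ A.card := by
  classical
  -- a bound beyond which nothing accidental happens
  have h1 : ∀ x ∈ B, ∃ n, ∀ w, n ≤ w → ¬ Acc' F (insert x A) w := by
    intro x hx
    have := (hB x hx).2
    unfold Alive at this
    push Not at this
    exact this
  have h2 : ∀ p : ℕ × ℕ, ∃ b, p.1 < p.2 → ∀ u w, u < w → Same F u w p.1 p.2 → w < b := by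
    intro p
    by_cases hp : p.1 < p.2
    · obtain ⟨b, hb⟩ := same_bound hF hp
      exact ⟨b, fun _ => hb⟩
    · exact ⟨0, fun h => absurd h hp⟩
  choose! n hn using h1
  choose b hb using h2
  obtain ⟨w, hw, hwA⟩ := hA ((B.sup n) + ((A ∪ B) ×ˢ (A ∪ B)).sup b + (B.sup id + 1))
  have hwn : ∀ x ∈ B, n x ≤ w := fun x hx => (Finset.le_sup hx).trans (by omega)
  have hwb : ∀ x ∈ A ∪ B, ∀ y ∈ A ∪ B, b (x, y) ≤ w := fun x hx y hy =>
    (Finset.le_sup (f := b) (Finset.mk_mem_product hx hy)).trans (by omega)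
  have hwB : ∀ x ∈ B, x < w := fun x hx => by
    have : x ≤ B.sup id := Finset.le_sup (f := id) hx
    omega
  have h3 : ∀ x ∈ B, ∃ a ∈ A, Same F x w a w := by
    intro x hx
    have hx1 := (hB x hx).1
    have hnot := hn x hx w (hwn x hx)
    have hlt : ∀ a ∈ insert x A, a < w := by
      intro a ha
      rcases Finset.mem_insert.mp ha with rfl | ha
      · exact hwB _ hx
      · exact hwA.1 a ha
    have hsub : ∀ a ∈ insert x A, a ∈ A ∪ B := by
      intro a ha
      rcases Finset.mem_insert.mp ha with rfl | ha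
      · exact Finset.mem_union_right _ hx
      · exact Finset.mem_union_left _ ha
    have hnr : ¬ Rainbow F (insert w (insert x A)) := fun h => hnot ⟨hlt, h⟩
    unfold Rainbow at hnr
    push Not at hnr
    obtain ⟨p, hp, q, hq, u, hu, v, hv, hpq, huv, hs, hne⟩ := hnr
    have hp' : p ∈ insert x A := by
      rcases Finset.mem_insert.mp hp with rfl | hp
      · rcases Finset.mem_insert.mp hq with rfl | hq
        · omega
        · have := hlt q hq; omega
      · exact hp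
    have hu' : u ∈ insert x A := by
      rcases Finset.mem_insert.mp hu with rfl | hu
      · rcases Finset.mem_insert.mp hv with rfl | hv
        · omega
        · have := hlt v hv; omega
      · exact hu
    rcases Finset.mem_insert.mp hq with rfl | hq'
    · rcases Finset.mem_insert.mp hv with rfl | hv'
      · have hpu : p ≠ u := fun h => hne h rfl
        rcases Finset.mem_insert.mp hp' with rfl | hpA
        · rcases Finset.mem_insert.mp hu' with rfl | huA
          · exact absurd rfl hpu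
          · exact ⟨u, huA, hs⟩
        · rcases Finset.mem_insert.mp hu' with rfl | huA
          · exact ⟨p, hpA, hs.symm⟩
          · exact absurd (hwA.2 p (Finset.mem_insert_of_mem hpA) v (Finset.mem_insert_self _ _)
              u (Finset.mem_insert_of_mem huA) v (Finset.mem_insert_self _ _) hpq huv hs).1 hpu
      · have := hb (u, v) huv p q hpq hs
        have := hwb u (hsub u hu') v (hsub v hv')
        omega
    · rcases Finset.mem_insert.mp hv with rfl | hv'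
      · have := hb (p, q) hpq u v huv hs.symm
        have := hwb p (hsub p hp') q (hsub q hq')
        omega
      · have := hx1.2 p hp' q hq' u hu' v hv' hpq huv hs
        exact absurd this.2 (hne this.1)
  choose! a ha ha' using h3
  refine Finset.card_le_card_of_injOn a (fun x hx => ha x hx) fun x hx x' hx' hxx => ?_
  by_contra hne
  have hx0 : x ∈ B := hx
  have hx0' : x' ∈ B := hx'
  obtain ⟨z, e1, e2⟩ := ha' x hx0
  obtain ⟨z', e1', e2'⟩ := ha' x' hx0'
  rw [← hxx] at e2'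
  have haw : a x < w := hwA.1 _ (ha x hx0)
  obtain rfl := (hF.1 _ _ haw).unique e2 e2'
  have := hF.2 _ x w x' w (a x) w (hwB x hx0) (hwB x' hx0') haw e1 e1' e2
  have l1 := (hB x hx0).1.1 _ (ha x hx0)
  have l2 := (hB x' hx0').1.1 _ (ha x hx0)
  omega

end Pool.Agent.P.MP_6fabb2_lc
end

-- part Pool.Agent.P.MP_6fabb2_lc.Prob
section

/-! The probability space of random choices and the one-coordinate slice bound. -/

namespace Pool.Agent.P.MP_6fabb2_lc

open MeasureTheory ProbabilityTheory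
open scoped ENNReal

abbrev Om : Type := ℕ × ℕ → ℕ

noncomputable def nu (i : ℕ × ℕ) : Measure ℕ :=
  uniformOn ((Finset.range (4 ^ (i.1 + i.2)) : Finset ℕ) : Set ℕ)

instance nu_prob (i : ℕ × ℕ) : IsProbabilityMeasure (nu i) :=
  isProbabilityMeasure_uniformOn (Finset.finite_toSet _) ⟨0, by simp⟩

noncomputable def PP : Measure Om := Measure.infinitePi nu

instance PP_prob : IsProbabilityMeasure PP := by unfold PP; infer_instance

lemma resample (i : ℕ × ℕ) :
    (PP.prod (nu i)).map (fun p : Om × ℕ => Function.update p.1 i p.2) = PP := by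
  classical
  refine Measure.eq_infinitePi nu fun s t ht => ?_
  rw [Measure.map_apply measurable_update' (MeasurableSet.pi s.countable_toSet fun j _ => ht j)]
  have e : (fun p : Om × ℕ => Function.update p.1 i p.2) ⁻¹' (Set.pi s t)
      = (Set.pi (s.erase i) t) ×ˢ (if i ∈ s then t i else Set.univ) := by
    ext ⟨X, y⟩
    simp only [Set.mem_preimage, Set.mem_pi, Finset.mem_coe, Set.mem_prod, Finset.mem_erase]
    constructor
    · intro h
      refine ⟨fun j hj => ?_, ?_⟩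
      · have := h j hj.2
        rwa [Function.update_of_ne hj.1] at this
      · split_ifs with hi
        · simpa using h i hi
        · trivial
    · rintro ⟨h1, h2⟩ j hj
      by_cases hji : j = i
      · subst hji
        rw [if_pos hj] at h2
        simpa using h2
      · rw [Function.update_of_ne hji]; exact h1 j ⟨hji, hj⟩
  rw [e, Measure.prod_prod, PP, Measure.infinitePi_pi _ fun j _ => ht j]
  split_ifs with hi
  · exact Finset.prod_erase_mul s (fun j => nu j (t j)) hi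
  · rw [Finset.erase_eq_of_notMem hi, measure_univ, mul_one]

lemma slice {E : Set Om} (hE : MeasurableSet E) (i : ℕ × ℕ) {ε : ℝ≥0∞}
    (h : ∀ X, nu i {y | Function.update X i y ∈ E} ≤ ε) : PP E ≤ ε := by
  classical
  rw [← resample i, Measure.map_apply measurable_update' hE,
    Measure.prod_apply (measurable_update' hE)]
  calc _ ≤ ∫⁻ _, ε ∂PP := lintegral_mono fun X => h X
    _ = ε := by simp

lemma nu_le (i : ℕ × ℕ) {S : Set ℕ} {s : ℕ} (h : ∀ B : Finset ℕ, (∀ y ∈ B, y ∈ S) → B.card ≤ s)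
    (hs : s ≤ 2 ^ (i.1 + i.2)) : nu i S ≤ 2⁻¹ ^ (i.1 + i.2) := by
  classical
  unfold nu
  set N := i.1 + i.2
  rw [← uniformOn_inter_self (Finset.finite_toSet _)]
  have e : ((Finset.range (4 ^ N) : Finset ℕ) : Set ℕ) ∩ S
      = (((Finset.range (4 ^ N)).filter (· ∈ S) : Finset ℕ) : Set ℕ) := by
    ext y; simp
  rw [e, uniformOn_apply_finset, Finset.card_range]
  have h1 : (Finset.range (4 ^ N) ∩ (Finset.range (4 ^ N)).filter (· ∈ S)).card ≤ 2 ^ N :=
    (h _ fun y hy => (Finset.mem_filter.mp (Finset.mem_inter.mp hy).2).2).trans hs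
  have h2 : (((Finset.range (4 ^ N) ∩ (Finset.range (4 ^ N)).filter (· ∈ S)).card : ℕ) : ℝ≥0∞)
      ≤ 2 ^ N := by exact_mod_cast h1
  refine (ENNReal.div_le_div_right h2 _).trans (le_of_eq ?_)
  have e2 : ((4 ^ N : ℕ) : ℝ≥0∞) = 2 ^ N * 2 ^ N := by
    rw [← mul_pow]; norm_num
  rw [e2, ← ENNReal.inv_pow, div_eq_mul_inv, ENNReal.mul_inv (Or.inl (by simp)) (Or.inl (by simp)),
    ← mul_assoc, ENNReal.mul_inv_cancel (by simp) (by simp), one_mul]

lemma meas_of_fin_dep (P : Om → Prop) (u : ℕ)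
    (h : ∀ X X' : Om, (∀ j < u, ∀ s < u, X' (j, s) = X (j, s)) → P X → P X') : Measurable P := by
  classical
  let res : Om → (Fin u × Fin u → ℕ) := fun X p => X (p.1, p.2)
  let ext : (Fin u × Fin u → ℕ) → Om := fun z p =>
    if hp : p.1 < u ∧ p.2 < u then z (⟨p.1, hp.1⟩, ⟨p.2, hp.2⟩) else 0
  have e : P = (fun z => P (ext z)) ∘ res := by
    funext X
    have h1 : ∀ j < u, ∀ s < u, ext (res X) (j, s) = X (j, s) := by
      intro j hj s hs
      simp only [ext, res, dif_pos (And.intro hj hs)]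
    exact propext ⟨h _ _ h1, h _ _ fun j hj s hs => (h1 j hj s hs).symm⟩
  rw [e]
  exact (measurable_of_countable _).comp (measurable_pi_lambda _ fun p => measurable_pi_apply _)

lemma null_of_le {E : Set Om} (h : ∀ j0 : ℕ, ∃ j, j0 ≤ j ∧ PP E ≤ 2⁻¹ ^ j * 2) : PP E = 0 := by
  have h1 : Filter.Tendsto (fun j : ℕ => (2⁻¹ : ℝ≥0∞) ^ j * 2) Filter.atTop (nhds 0) := by
    have := ENNReal.Tendsto.mul_const (b := 2)
      (ENNReal.tendsto_pow_atTop_nhds_zero_of_lt_one (r := 2⁻¹) (by simp)) (Or.inr (by simp))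
    simpa using this
  refine le_antisymm (ge_of_tendsto' h1 fun j0 => ?_) (zero_le)
  obtain ⟨j, hj, h2⟩ := h j0
  refine h2.trans (mul_le_mul_left (pow_le_pow_right_of_le_one' (by simp) hj) _)

end Pool.Agent.P.MP_6fabb2_lc
end

-- part Pool.Agent.P.MP_6fabb2_lc.Solver
section

/-! Stability, measurability and success probability of the rainbow solver. -/

namespace Pool.Agent.P.MP_6fabb2_lc

open MeasureTheory Filter
open scoped ENNReal

section stable

variable {α : Type} {l : Filter α} {F : α → Set ℕ} {F0 : Set ℕ}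

lemma same_stable (hF : ∀ n, ∀ᶠ o in l, n ∈ F o ↔ n ∈ F0) (hv : ∀ᶠ o in l, Valid (F o))
    (hv0 : Valid F0) (x y u v : ℕ) :
    ∀ᶠ o in l, x < y → u < v → (Same (F o) x y u v ↔ Same F0 x y u v) := by
  by_cases hxy : x < y
  swap
  · exact Eventually.of_forall fun _ h => absurd h hxy
  by_cases huv : u < v
  swap
  · exact Eventually.of_forall fun _ _ h => absurd h huv
  obtain ⟨z, hz, hz'⟩ := hv0.1 x y hxy
  obtain ⟨w, hw, hw'⟩ := hv0.1 u v huv
  filter_upwards [hF (spair (spair x y) z), hF (spair (spair u v) w), hv] with o h1 h2 h3 _ _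
  constructor
  · rintro ⟨c, c1, c2⟩
    obtain rfl := (h3.1 x y hxy).unique c1 (h1.2 hz)
    obtain rfl := (h3.1 u v huv).unique c2 (h2.2 hw)
    exact ⟨c, hz, hw⟩
  · rintro ⟨c, c1, c2⟩
    obtain rfl := hz' c c1
    obtain rfl := hw' c c2
    exact ⟨c, h1.2 hz, h2.2 hw⟩

lemma acc_stable (hF : ∀ n, ∀ᶠ o in l, n ∈ F o ↔ n ∈ F0) (hv : ∀ᶠ o in l, Valid (F o))
    (hv0 : Valid F0) (A : Finset ℕ) (t : ℕ) :
    ∀ᶠ o in l, Acc' (F o) A t ↔ Acc' F0 A t := by
  have h : ∀ᶠ o in l, ∀ x ∈ insert t A, ∀ y ∈ insert t A, ∀ u ∈ insert t A, ∀ v ∈ insert t A,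
      x < y → u < v → (Same (F o) x y u v ↔ Same F0 x y u v) := by
    simp only [Filter.eventually_all_finset]
    exact fun x _ y _ u _ v _ => same_stable hF hv hv0 x y u v
  filter_upwards [h] with o ho
  refine and_congr Iff.rfl ⟨fun h1 x hx y hy u hu v hv hxy huv hs => ?_,
    fun h1 x hx y hy u hu v hv hxy huv hs => ?_⟩
  · exact h1 x hx y hy u hu v hv hxy huv ((ho x hx y hy u hu v hv hxy huv).2 hs)
  · exact h1 x hx y hy u hu v hv hxy huv ((ho x hx y hy u hu v hv hxy huv).1 hs)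

lemma run_stable (hF : ∀ n, ∀ᶠ o in l, n ∈ F o ↔ n ∈ F0) (hv : ∀ᶠ o in l, Valid (F o))
    (hv0 : Valid F0) {Y : α → ℕ → ℕ} {Y0 : ℕ → ℕ} (hY : ∀ s, ∀ᶠ o in l, Y o s = Y0 s) :
    ∀ (s : ℕ) (A : Finset ℕ), Run F0 Y0 s A → ∀ᶠ o in l, Run (F o) (Y o) s A := by
  intro s
  induction s with
  | zero => exact fun A h => Eventually.of_forall fun _ => h
  | succ s ih =>
    rintro A' ⟨A, x, h1, ⟨h2, B, hB, hB'⟩, rfl⟩
    have h : ∀ᶠ o in l, ∀ y ∈ Finset.range (x + 1), (Acc' (F o) A y ↔ Acc' F0 A y) := by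
      simp only [Filter.eventually_all_finset]
      exact fun y _ => acc_stable hF hv hv0 A y
    filter_upwards [ih A h1, hY s, h] with o o1 o2 o3
    refine ⟨A, x, o1, ⟨(o3 x (by simp)).2 h2, B, hB.trans o2.symm, fun y => ?_⟩, rfl⟩
    rw [hB']
    exact and_congr_right fun hy => (o3 y (Finset.mem_range.mpr (by omega))).symm

end stable

section meas

variable {F : Om → Set ℕ} (hF : ∀ n, Measurable fun X => n ∈ F X)
include hF

lemma meas_valid : Measurable fun X => Valid (F X) := by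
  refine Measurable.and ?_ ?_
  · refine Measurable.forall fun x => Measurable.forall fun y => measurable_const.imp ?_
    exact Measurable.exists fun z => (hF _).and (Measurable.forall fun w => (hF _).imp measurable_const)
  · refine Measurable.forall fun _ => Measurable.forall fun _ => Measurable.forall fun _ =>
      Measurable.forall fun _ => Measurable.forall fun _ => Measurable.forall fun _ =>
      Measurable.forall fun _ => measurable_const.imp (measurable_const.imp (measurable_const.imp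
        ((hF _).imp ((hF _).imp ((hF _).imp measurable_const)))))

lemma meas_acc (A : Finset ℕ) (t : ℕ) : Measurable fun X => Acc' (F X) A t := by
  refine measurable_const.and ?_
  refine Measurable.forall fun _ => measurable_const.imp <| Measurable.forall fun _ =>
    measurable_const.imp <| Measurable.forall fun _ => measurable_const.imp <|
    Measurable.forall fun _ => measurable_const.imp <| measurable_const.imp <|
    measurable_const.imp <| Measurable.imp ?_ measurable_const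
  exact Measurable.exists fun z => (hF _).and (hF _)

lemma meas_nth (A : Finset ℕ) (i : ℕ × ℕ) (x : ℕ) :
    Measurable fun X : Om => IsNth (Acc' (F X) A) (X i) x := by
  refine (meas_acc hF A x).and (Measurable.exists fun B => Measurable.and ?_ ?_)
  · exact (measurable_of_countable (fun n : ℕ => B.card = n)).comp (measurable_pi_apply i)
  · exact Measurable.forall fun y => measurable_const.iff (measurable_const.and (meas_acc hF A y))

lemma meas_run (j : ℕ) : ∀ (s : ℕ) (A : Finset ℕ),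
    Measurable fun X : Om => Run (F X) (fun s => X (j, s)) s A := by
  intro s
  induction s with
  | zero => exact fun A => measurable_const
  | succ s ih =>
    intro A'
    exact Measurable.exists fun A => Measurable.exists fun x =>
      (ih A).and ((meas_nth hF A (j, s) x).and measurable_const)

lemma meas_alive (A : Finset ℕ) : Measurable fun X => Alive (F X) A :=
  Measurable.forall fun _ => Measurable.exists fun x => measurable_const.and (meas_acc hF A x)

theorem fail_le (j : ℕ) (hinv : ∀ X s y, F (Function.update X (j, s) y) = F X) :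
    PP {X | Valid (F X) ∧ ¬ ∀ s, ∃ A, Run (F X) (fun s => X (j, s)) s A} ≤ 2⁻¹ ^ j * 2 := by
  classical
  set E : ℕ → Set Om := fun s => {X | Valid (F X) ∧ ∃ A x, Run (F X) (fun s => X (j, s)) s A ∧
    Alive (F X) A ∧ IsNth (Acc' (F X) A) (X (j, s)) x ∧ ¬ Alive (F X) (insert x A)} with hE
  have hEm : ∀ s, MeasurableSet (E s) := fun s =>
    ((meas_valid hF).and (Measurable.exists fun A => Measurable.exists fun x =>
      (meas_run hF j s A).and ((meas_alive hF A).and ((meas_nth hF A (j, s) x).and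
        (meas_alive hF _).not)))).setOf
  have hcover : {X | Valid (F X) ∧ ¬ ∀ s, ∃ A, Run (F X) (fun s => X (j, s)) s A} ⊆ ⋃ s, E s := by
    rintro X ⟨h1, h2⟩
    obtain ⟨s, h3⟩ := exists_death h2
    exact Set.mem_iUnion.mpr ⟨s, h1, h3⟩
  have hb : ∀ s, PP (E s) ≤ 2⁻¹ ^ (j + s) := by
    intro s
    refine slice (hEm s) (j, s) fun X => nu_le (j, s) (s := s) (fun B hB => ?_)
      (Nat.lt_two_pow_self.le.trans (Nat.pow_le_pow_right (by norm_num) (Nat.le_add_left s j)))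
    have h1 : ∀ y ∈ B, Valid (F X) ∧ ∃ A x, Run (F X) (fun s => X (j, s)) s A ∧
        Alive (F X) A ∧ IsNth (Acc' (F X) A) y x ∧ ¬ Alive (F X) (insert x A) := by
      intro y hy
      have := hB y hy
      simp only [hE, Set.mem_ofPred_eq, hinv, Function.update_self] at this
      obtain ⟨a1, A, x, a2, a3⟩ := this
      refine ⟨a1, A, x, Run.congr (fun i hi => ?_) a2, a3⟩
      exact Function.update_of_ne (by simp only [ne_eq, Prod.mk.injEq]; omega) _ _
    rcases B.eq_empty_or_nonempty with rfl | ⟨y0, hy0⟩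
    · simp
    obtain ⟨hv, A, -, hA, hal, -⟩ := h1 y0 hy0
    have h2 : ∀ y ∈ B, ∃ x, IsNth (Acc' (F X) A) y x ∧ ¬ Alive (F X) (insert x A) := by
      intro y hy
      obtain ⟨-, A', x, hA', -, a1, a2⟩ := h1 y hy
      obtain rfl := hA.unique hA'
      exact ⟨x, a1, a2⟩
    choose! g hg hg' using h2
    have h3 := dead_card hv hal (B.image g) fun x hx => by
      obtain ⟨y, hy, rfl⟩ := Finset.mem_image.mp hx
      exact ⟨(hg y hy).1, hg' y hy⟩
    have h4 : Set.InjOn g B := fun y hy y' hy' h => (hg y hy).inj (h ▸ hg y' hy')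
    rw [Finset.card_image_of_injOn h4, hA.card_rainbow.1] at h3
    exact h3
  calc _ ≤ PP (⋃ s, E s) := measure_mono hcover
    _ ≤ ∑' s, PP (E s) := measure_iUnion_le _
    _ ≤ ∑' s, (2⁻¹ : ℝ≥0∞) ^ (j + s) := ENNReal.tsum_le_tsum hb
    _ = _ := by
      simp only [pow_add]
      rw [ENNReal.tsum_mul_left, ENNReal.tsum_geometric_two]

end meas

end Pool.Agent.P.MP_6fabb2_lc
end

-- part Pool.Agent.P.MP_6fabb2_lc.Equi
section

/-! Equidistribution in the mean: a slope that spreads most large finite sets. -/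

namespace Pool.Agent.P.MP_6fabb2_lc

open Finset

/-- `|∑_{x ∈ F} e^{i x θ}|^2` written as a double cosine sum -/
noncomputable def Sq (F : Finset ℕ) (θ : ℝ) : ℝ :=
  ∑ x ∈ F, ∑ y ∈ F, Real.cos (((x : ℝ) - y) * θ)

lemma Sq_eq (F : Finset ℕ) (θ : ℝ) :
    Sq F θ = (∑ x ∈ F, Real.cos (x * θ)) ^ 2 + (∑ x ∈ F, Real.sin (x * θ)) ^ 2 := by
  unfold Sq
  rw [pow_two, pow_two, Finset.sum_mul_sum, Finset.sum_mul_sum, ← Finset.sum_add_distrib]
  refine Finset.sum_congr rfl fun x _ => ?_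
  rw [← Finset.sum_add_distrib]
  refine Finset.sum_congr rfl fun y _ => ?_
  rw [sub_mul, Real.cos_sub]

lemma Sq_nonneg (F : Finset ℕ) (θ : ℝ) : 0 ≤ Sq F θ := by rw [Sq_eq]; positivity

lemma Sq_cont (F : Finset ℕ) : Continuous (Sq F) := by unfold Sq; fun_prop

lemma cos_sum_sq_le (F : Finset ℕ) (θ β : ℝ) :
    (∑ x ∈ F, Real.cos (x * θ + β)) ^ 2 ≤ Sq F θ := by
  rw [Sq_eq]
  simp only [Real.cos_add, Finset.sum_sub_distrib, ← Finset.sum_mul]
  have := Real.sin_sq_add_cos_sq β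
  generalize ∑ x ∈ F, Real.cos (x * θ) = C
  generalize ∑ x ∈ F, Real.sin (x * θ) = S
  nlinarith [sq_nonneg (C * Real.sin β + S * Real.cos β)]

/-- `F` is well spread by the slope `θ` -/
def Spread (F : Finset ℕ) (θ : ℝ) : Prop := Sq F θ + Sq F (2 * θ) < (F.card : ℝ) ^ 2 / 64

lemma Spread.exists_neg {F : Finset ℕ} {θ : ℝ} (h : Spread F θ) (β : ℝ) :
    ∃ x ∈ F, Real.cos (x * θ + β) < -(1 / 4) := by
  by_contra hc
  push Not at hc
  have h1 := cos_sum_sq_le F θ β
  have h2 := cos_sum_sq_le F (2 * θ) (2 * β)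
  have h3 : (F.card : ℝ) * (3 / 16) ≤
      ∑ x ∈ F, Real.cos (x * θ + β) - (1 / 2) * ∑ x ∈ F, Real.cos (x * (2 * θ) + 2 * β) := by
    rw [Finset.mul_sum, ← Finset.sum_sub_distrib, ← nsmul_eq_mul]
    refine Finset.card_nsmul_le_sum _ _ _ fun x hx => ?_
    have e : (x : ℝ) * (2 * θ) + 2 * β = 2 * (x * θ + β) := by ring
    rw [e, Real.cos_two_mul]
    have a1 := hc x hx
    have a2 := Real.cos_le_one (x * θ + β)
    nlinarith
  unfold Spread at h
  have p1 := Sq_nonneg F θ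
  have p2 := Sq_nonneg F (2 * θ)
  have hr : (0 : ℝ) ≤ F.card / 8 := by positivity
  have b1 : |∑ x ∈ F, Real.cos (x * θ + β)| < F.card / 8 :=
    abs_lt_of_sq_lt_sq (by linarith) hr
  have b2 : |∑ x ∈ F, Real.cos (x * (2 * θ) + 2 * β)| < F.card / 8 :=
    abs_lt_of_sq_lt_sq (by linarith) hr
  have := abs_lt.mp b1
  have := abs_lt.mp b2
  linarith

lemma int_cos_le (d a w : ℝ) (hw : 0 ≤ w) : ∫ θ in a..(a + w), Real.cos (d * θ) ≤ w := by
  have : ∫ θ in a..(a + w), Real.cos (d * θ) ≤ ∫ _ in a..(a + w), (1 : ℝ) :=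
    intervalIntegral.integral_mono_on (by linarith) (Continuous.intervalIntegrable (by fun_prop) _ _)
      (Continuous.intervalIntegrable (by fun_prop) _ _) fun _ _ => Real.cos_le_one _
  simpa using this

lemma int_cos_le' (d a w : ℝ) (hd : d ≠ 0) : ∫ θ in a..(a + w), Real.cos (d * θ) ≤ 2 / |d| := by
  rw [intervalIntegral.integral_comp_mul_left (fun x => Real.cos x) hd, integral_cos, smul_eq_mul]
  have h1 : |Real.sin (d * (a + w)) - Real.sin (d * a)| ≤ 2 := by
    have := Real.abs_sin_le_one (d * (a + w))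
    have := Real.abs_sin_le_one (d * a)
    have := abs_sub (Real.sin (d * (a + w))) (Real.sin (d * a))
    linarith
  refine (le_abs_self _).trans ?_
  rw [abs_mul, abs_inv, div_eq_inv_mul]
  exact mul_le_mul_of_nonneg_left h1 (by positivity)

lemma int_Sq_le (F : Finset ℕ) (c : ℝ) (hc : 1 ≤ c) (a w : ℝ) (hw : 0 ≤ w) (K : ℕ) (hK : 0 < K) :
    ∫ θ in a..(a + w), Sq F (c * θ) ≤ F.card * ((2 * K + 1) * w) + (F.card : ℝ) ^ 2 * (2 / K) := by
  unfold Sq
  have hK' : (0 : ℝ) < K := by exact_mod_cast hK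
  rw [intervalIntegral.integral_finsetSum fun x _ => Continuous.intervalIntegrable (by fun_prop) _ _]
  have : ∀ x ∈ F, ∫ θ in a..(a + w), ∑ y ∈ F, Real.cos (((x : ℝ) - y) * (c * θ))
      ≤ (2 * K + 1) * w + F.card * (2 / K) := by
    intro x _
    rw [intervalIntegral.integral_finsetSum fun y _ => Continuous.intervalIntegrable (by fun_prop) _ _]
    have h1 : ∀ y ∈ F, ∫ θ in a..(a + w), Real.cos (((x : ℝ) - y) * (c * θ))
        ≤ (if y ∈ Icc (x - K) (x + K) then w else 0) + 2 / K := by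
      intro y _
      simp only [← mul_assoc]
      split_ifs with h
      · have := int_cos_le (((x : ℝ) - y) * c) a w hw
        have : (0 : ℝ) ≤ 2 / K := by positivity
        linarith
      · have h2 : (K : ℝ) ≤ |(x : ℝ) - y| := by
          simp only [mem_Icc] at h
          rw [le_abs]
          rcases le_total x y with h3 | h3
          · right
            have : x + K ≤ y := by omega
            have : (x : ℝ) + K ≤ y := by exact_mod_cast this
            linarith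
          · left
            have : y + K ≤ x := by omega
            have : (y : ℝ) + K ≤ x := by exact_mod_cast this
            linarith
        have h3 : (K : ℝ) ≤ |((x : ℝ) - y) * c| := by
          rw [abs_mul, abs_of_nonneg (by linarith : 0 ≤ c)]
          nlinarith
        have h4 : ((x : ℝ) - y) * c ≠ 0 := by
          intro h0; rw [h0, abs_zero] at h3; linarith
        rw [zero_add]
        exact (int_cos_le' _ a w h4).trans (div_le_div_of_nonneg_left (by norm_num) hK' h3)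
    refine (Finset.sum_le_sum h1).trans ?_
    rw [Finset.sum_add_distrib, ← Finset.sum_filter, Finset.sum_const, Finset.sum_const,
      nsmul_eq_mul, nsmul_eq_mul]
    have h5 : (F.filter fun y => y ∈ Icc (x - K) (x + K)).card ≤ 2 * K + 1 := by
      refine (Finset.card_le_card (t := Icc (x - K) (x + K)) fun y hy =>
        (Finset.mem_filter.mp hy).2).trans ?_
      rw [Nat.card_Icc]; omega
    have h6 : ((F.filter fun y => y ∈ Icc (x - K) (x + K)).card : ℝ) ≤ 2 * K + 1 := by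
      exact_mod_cast h5
    have := mul_le_mul_of_nonneg_right h6 hw
    linarith
  refine (Finset.sum_le_sum this).trans (le_of_eq ?_)
  rw [Finset.sum_const, nsmul_eq_mul]; ring

theorem exists_slope {w ε : ℝ} (hw : 0 < w) (hε : 0 < ε) : ∃ r : ℕ, ∀ (a : ℝ)
    (T : Finset (Finset ℕ)) (p : Finset ℕ → ℝ), (∀ F ∈ T, r ≤ F.card) → (∀ F ∈ T, 0 ≤ p F) →
    ∑ F ∈ T, p F ≤ 1 → ∃ θ ∈ Set.Icc a (a + w), ∀ T' ⊆ T, (∀ F ∈ T', ¬ Spread F θ) →
      ∑ F ∈ T', p F ≤ ε := by
  obtain ⟨K, hK⟩ := exists_nat_gt (1024 / (ε * w))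
  have hK0 : (0 : ℝ) < K := lt_trans (by positivity) hK
  have hK1 : 0 < K := by exact_mod_cast hK0
  obtain ⟨r, hr⟩ := exists_nat_gt (512 * (2 * K + 1) / ε)
  have hr0 : (0 : ℝ) < r := lt_trans (by positivity) hr
  refine ⟨r, fun a T p hT hp hp1 => ?_⟩
  set Ψ : ℝ → ℝ := fun θ => ∑ F ∈ T, p F / (F.card : ℝ) ^ 2 * (Sq F (1 * θ) + Sq F (2 * θ)) with hΨ
  have hc : ∀ (F : Finset ℕ) (c : ℝ), Continuous fun θ => Sq F (c * θ) :=
    fun F c => (Sq_cont F).comp (by fun_prop)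
  have hΨc : Continuous Ψ :=
    continuous_finsetSum _ fun F _ => continuous_const.mul ((hc F 1).add (hc F 2))
  have hint : ∫ θ in a..(a + w), Ψ θ ≤ ε * w / 128 := by
    simp only [hΨ]
    rw [intervalIntegral.integral_finsetSum
      (f := fun F θ => p F / (F.card : ℝ) ^ 2 * (Sq F (1 * θ) + Sq F (2 * θ))) fun F _ =>
      (continuous_const.mul ((hc F 1).add (hc F 2))).intervalIntegrable _ _]
    have : ∀ F ∈ T, ∫ θ in a..(a + w), p F / (F.card : ℝ) ^ 2 * (Sq F (1 * θ) + Sq F (2 * θ))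
        ≤ p F * (ε * w / 128) := by
      intro F hF
      rw [intervalIntegral.integral_const_mul, intervalIntegral.integral_add
        ((hc F 1).intervalIntegrable _ _) ((hc F 2).intervalIntegrable _ _)]
      have h1 := int_Sq_le F 1 le_rfl a w hw.le K hK1
      have h2 := int_Sq_le F 2 (by norm_num) a w hw.le K hK1
      have hF1 : (r : ℝ) ≤ F.card := by exact_mod_cast hT F hF
      have hF0 : (0 : ℝ) < F.card := lt_of_lt_of_le hr0 hF1
      have h3 : (2 : ℝ) / K ≤ ε * w / 512 := by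
        rw [div_lt_iff₀ (by positivity)] at hK
        rw [div_le_div_iff₀ hK0 (by norm_num)]
        nlinarith
      have h4 : (2 * (K : ℝ) + 1) ≤ ε / 512 * F.card := by
        rw [div_lt_iff₀ hε] at hr
        nlinarith
      have h5 : (F.card : ℝ) * ((2 * K + 1) * w) + (F.card : ℝ) ^ 2 * (2 / K)
          ≤ (F.card : ℝ) ^ 2 * (ε * w / 256) := by
        have a1 := mul_le_mul_of_nonneg_left h3 (sq_nonneg (F.card : ℝ))
        have a2 := mul_le_mul_of_nonneg_left (mul_le_mul_of_nonneg_right h4 hw.le) hF0.le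
        nlinarith
      calc _ ≤ p F / (F.card : ℝ) ^ 2 * ((F.card : ℝ) ^ 2 * (ε * w / 128)) :=
            mul_le_mul_of_nonneg_left (by linarith) (div_nonneg (hp F hF) (sq_nonneg _))
        _ = _ := by field_simp
    refine (Finset.sum_le_sum this).trans ?_
    rw [← Finset.sum_mul]
    exact mul_le_of_le_one_left (by positivity) hp1
  have hex : ∃ θ ∈ Set.Icc a (a + w), Ψ θ ≤ ε / 64 := by
    by_contra hcon
    push Not at hcon
    have : ∫ _ in a..(a + w), (ε / 64) ≤ ∫ θ in a..(a + w), Ψ θ :=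
      intervalIntegral.integral_mono_on (by linarith) (Continuous.intervalIntegrable (by fun_prop) _ _)
        (hΨc.intervalIntegrable _ _) fun θ hθ => (hcon θ hθ).le
    simp only [intervalIntegral.integral_const, add_sub_cancel_left, smul_eq_mul] at this
    have : 0 < ε * w := by positivity
    linarith
  obtain ⟨θ, hθ, hΨθ⟩ := hex
  refine ⟨θ, hθ, fun T' hT' hns => ?_⟩
  have h1 : ∑ F ∈ T', p F / 64 ≤ Ψ θ := by
    refine le_trans (Finset.sum_le_sum fun F hF => ?_)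
      (Finset.sum_le_sum_of_subset_of_nonneg hT' fun F hF _ =>
        mul_nonneg (div_nonneg (hp F hF) (sq_nonneg _)) (add_nonneg (Sq_nonneg _ _) (Sq_nonneg _ _)))
    have h2 := hns F hF
    unfold Spread at h2
    push Not at h2
    have hF1 : (r : ℝ) ≤ F.card := by exact_mod_cast hT F (hT' hF)
    have hF0 : (0 : ℝ) < F.card := lt_of_lt_of_le hr0 hF1
    rw [one_mul]
    calc p F / 64 = p F / (F.card : ℝ) ^ 2 * ((F.card : ℝ) ^ 2 / 64) := by field_simp
      _ ≤ _ := mul_le_mul_of_nonneg_left h2 (div_nonneg (hp F (hT' hF)) (sq_nonneg _))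
  rw [← Finset.sum_div] at h1
  linarith

end Pool.Agent.P.MP_6fabb2_lc
end

-- part Pool.Agent.P.MP_6fabb2_lc.Force
section

/-! Construction of a colouring which no positive measure set of oracles can solve. -/

namespace Pool.Agent.P.MP_6fabb2_lc

open MeasureTheory Finset
open scoped ENNReal

abbrev OO : Type := (ℕ → ℝ) × Om

def Ag (u : ℕ) (o o' : OO) : Prop :=
  (∀ i < u, o'.1 i = o.1 i) ∧ ∀ j < u, ∀ s < u, o'.2 (j, s) = o.2 (j, s)

lemma Ag.refl (u : ℕ) (o : OO) : Ag u o o := ⟨fun _ _ => rfl, fun _ _ _ _ => rfl⟩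

lemma Ag.symm {u : ℕ} {o o' : OO} (h : Ag u o o') : Ag u o' o :=
  ⟨fun i hi => (h.1 i hi).symm, fun j hj s hs => (h.2 j hj s hs).symm⟩

lemma Ag.trans {u : ℕ} {o o' o'' : OO} (h : Ag u o o') (h' : Ag u o' o'') : Ag u o o'' :=
  ⟨fun i hi => (h'.1 i hi).trans (h.1 i hi), fun j hj s hs => (h'.2 j hj s hs).trans (h.2 j hj s hs)⟩

lemma Ag.mono {u v : ℕ} {o o' : OO} (h : Ag v o o') (huv : u ≤ v) : Ag u o o' :=
  ⟨fun i hi => h.1 i (by omega), fun j hj s hs => h.2 j (by omega) s (by omega)⟩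

open Classical in
/-- elements confirmed with use `u` -/
noncomputable def Gc (D : Set OO) (f : OO → Set ℕ) (u : ℕ) (o : OO) : Finset ℕ :=
  (range u).filter fun m => ∀ o' ∈ D, Ag u o o' → m ∈ f o'

lemma mem_Gc {D : Set OO} {f : OO → Set ℕ} {u : ℕ} {o : OO} {m : ℕ} :
    m ∈ Gc D f u o ↔ m < u ∧ ∀ o' ∈ D, Ag u o o' → m ∈ f o' := by
  simp [Gc]

lemma Gc_congr {D : Set OO} {f : OO → Set ℕ} {u : ℕ} {o o' : OO} (h : Ag u o o') :
    Gc D f u o = Gc D f u o' := by
  ext m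
  simp only [mem_Gc]
  exact ⟨fun h1 => ⟨h1.1, fun o'' ho h2 => h1.2 o'' ho (h.trans h2)⟩,
    fun h1 => ⟨h1.1, fun o'' ho h2 => h1.2 o'' ho (h.symm.trans h2)⟩⟩

lemma Gc_mono {D : Set OO} {f : OO → Set ℕ} {u v : ℕ} (huv : u ≤ v) (o : OO) :
    Gc D f u o ⊆ Gc D f v o := by
  intro m hm
  rw [mem_Gc] at hm ⊢
  exact ⟨by omega, fun o' ho h => hm.2 o' ho (h.mono huv)⟩

lemma meas_Gc (D : Set OO) (f : OO → Set ℕ) (u : ℕ) (θ : ℕ → ℝ) (P : Finset ℕ → Prop) :
    Measurable fun X : Om => P (Gc D f u (θ, X)) :=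
  meas_of_fin_dep _ u fun X X' h hP => by
    rwa [← Gc_congr (o := (θ, X)) (o' := (θ, X')) ⟨fun _ _ => rfl, h⟩]

/-- positive information has finite use -/
def PosStable (D : Set OO) (f : OO → Set ℕ) : Prop :=
  ∀ o ∈ D, ∀ m ∈ f o, ∃ u, ∀ o' ∈ D, Ag u o o' → m ∈ f o'

lemma PosStable.exists_mem {D : Set OO} {f : OO → Set ℕ} (h : PosStable D f) {o : OO} (ho : o ∈ D)
    {m : ℕ} (hm : m ∈ f o) : ∃ u, m ∈ Gc D f u o := by
  obtain ⟨u, hu⟩ := h o ho m hm
  exact ⟨u + m + 1, mem_Gc.mpr ⟨by omega, fun o' ho' h => hu o' ho' (h.mono (by omega))⟩⟩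

lemma PosStable.exists_card {D : Set OO} {f : OO → Set ℕ} (h : PosStable D f) {o : OO} (ho : o ∈ D)
    (hinf : ∀ n, ∃ m ∈ f o, n < m) (r : ℕ) : ∃ u, r ≤ (Gc D f u o).card := by
  induction r with
  | zero => exact ⟨0, Nat.zero_le _⟩
  | succ r ih =>
    obtain ⟨u, hu⟩ := ih
    obtain ⟨m, hm, hum⟩ := hinf u
    obtain ⟨v, hv⟩ := h.exists_mem ho hm
    refine ⟨u + v, Nat.succ_le_of_lt (lt_of_le_of_lt hu (Finset.card_lt_card
      ⟨Gc_mono (by omega) o, fun hc => ?_⟩))⟩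
    have := (mem_Gc.mp (hc (Gc_mono (by omega) o hv))).1
    omega

/-- the phase -/
noncomputable def ph (θ : ℕ → ℝ) (n : ℕ) : ℝ := ∑ i ∈ range n, θ i

open Classical in
/-- the graph of the colouring attached to a sequence of slopes -/
def Col (θ : ℕ → ℝ) : Set ℕ :=
  {p | ∃ x, p = spair x (if 0 ≤ Real.cos (ph θ x) then 1 else 0)}

def Sol (F H : Set ℕ) : Prop :=
  (∀ n, ∃ m ∈ H, n < m) ∧ ∃ z, ∀ x ∈ H, ∀ y ∈ H, x < y → spair (x + y) z ∈ F

lemma spair_inj {x y x' y' : ℕ} (h : spair x y = spair x' y') : x = x' ∧ y = y' := by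
  unfold spair at h
  have h1 : x + y = x' + y' := by
    rcases lt_trichotomy (x + y) (x' + y') with h2 | h2 | h2
    · have : (x + y + 1) * (x + y + 1) ≤ (x' + y') * (x' + y') := Nat.mul_le_mul h2 h2
      nlinarith
    · exact h2
    · have : (x' + y' + 1) * (x' + y' + 1) ≤ (x + y) * (x + y) := Nat.mul_le_mul h2 h2
      nlinarith
  rw [h1] at h
  omega

open Classical in
lemma mem_Col {θ : ℕ → ℝ} {x z : ℕ} :
    spair x z ∈ Col θ ↔ z = if 0 ≤ Real.cos (ph θ x) then 1 else 0 := by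
  constructor
  · rintro ⟨x', h⟩
    obtain ⟨rfl, h2⟩ := spair_inj h
    exact h2
  · rintro rfl; exact ⟨x, rfl⟩

structure Cond where
  n : ℕ
  τ : ℕ → ℝ
  a : ℝ
  w : ℝ
  hw : 0 < w

def Cond.mem (p : Cond) (θ : ℕ → ℝ) : Prop :=
  ∀ i, (i < p.n → θ i = p.τ i) ∧ (p.n ≤ i → θ i ∈ Set.Icc p.a (p.a + p.w))

lemma Cond.nonempty (p : Cond) : ∃ θ, p.mem θ := by
  refine ⟨fun i => if i < p.n then p.τ i else p.a, fun i => ⟨fun h => if_pos h, fun h => ?_⟩⟩
  simp only [if_neg (not_lt.mpr h)]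
  exact ⟨le_rfl, by linarith [p.hw]⟩

lemma not_sol {θ : ℕ → ℝ} {u : ℕ} {θ0 w : ℝ} (hw : 0 ≤ w) (hwu : w * u ≤ 1 / 4)
    (hθ : ∀ i, u ≤ i → θ i ∈ Set.Icc θ0 (θ0 + w)) {F : Finset ℕ} (hF : ∀ x ∈ F, x < u)
    (hs : Spread F θ0) {H : Set ℕ} (hFH : ∀ x ∈ F, x ∈ H) : ¬ Sol (Col θ) H := by
  rintro ⟨hinf, z, hz⟩
  obtain ⟨y, hy, huy⟩ := hinf u
  have key : ∀ x ∈ F, |Real.cos (ph θ (x + y)) - Real.cos (x * θ0 + ph θ y)| ≤ 1 / 4 := by
    intro x hx
    refine (Real.abs_cos_sub_cos_le _ _).trans ?_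
    have e : ph θ (x + y) = ph θ y + ∑ i ∈ range x, θ (y + i) := by
      unfold ph; rw [add_comm x y, Finset.sum_range_add]
    have h1 : (x : ℝ) * θ0 ≤ ∑ i ∈ range x, θ (y + i) := by
      have := Finset.card_nsmul_le_sum (range x) (fun i => θ (y + i)) θ0
        fun i _ => (hθ _ (by omega)).1
      simpa using this
    have h2 : ∑ i ∈ range x, θ (y + i) ≤ (x : ℝ) * (θ0 + w) := by
      have := Finset.sum_le_card_nsmul (range x) (fun i => θ (y + i)) (θ0 + w)
        fun i _ => (hθ _ (by omega)).2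
      rwa [Finset.card_range, nsmul_eq_mul] at this
    have h3 : (x : ℝ) ≤ u := by exact_mod_cast (hF x hx).le
    have h4 : (x : ℝ) * w ≤ u * w := mul_le_mul_of_nonneg_right h3 hw
    rw [e, abs_le]
    constructor <;> nlinarith
  obtain ⟨x, hx, h1⟩ := hs.exists_neg (ph θ y)
  obtain ⟨x', hx', h2⟩ := hs.exists_neg (ph θ y + Real.pi)
  rw [← add_assoc, Real.cos_add_pi] at h2
  have k1 := abs_le.mp (key x hx)
  have k2 := abs_le.mp (key x' hx')
  have z1 := mem_Col.mp (hz x (hFH x hx) y hy (by have := hF x hx; omega))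
  have z2 := mem_Col.mp (hz x' (hFH x' hx') y hy (by have := hF x' hx'; omega))
  rw [if_neg (by linarith)] at z1
  rw [if_pos (by linarith)] at z2
  omega

theorem step (p : Cond) {D : Set OO} {f : OO → Set ℕ} (hst : PosStable D f) {δ : ℝ} (hδ : 0 < δ) :
    ∃ q : Cond, p.n < q.n ∧ (∀ θ, q.mem θ → p.mem θ) ∧
      ∀ θ, q.mem θ → PP.real {X | (θ, X) ∈ D ∧ Sol (Col θ) (f (θ, X))} ≤ δ := by
  classical
  obtain ⟨r, hr⟩ := exists_slope (w := p.w / 2) (ε := δ / 2) (by linarith [p.hw]) (by linarith)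
  set V : (ℕ → ℝ) → ℕ → Set Om := fun θ u => {X | r ≤ (Gc D f u (θ, X)).card} with hV
  have hVm : ∀ θ u, MeasurableSet (V θ u) := fun θ u =>
    (meas_Gc D f u θ fun G => r ≤ G.card).setOf
  have hVmono : ∀ θ, Monotone (V θ) := fun θ u v huv X hX =>
    le_trans hX (Finset.card_le_card (Gc_mono huv _))
  set SS : Set ℝ := {x | ∃ θ u, p.mem θ ∧ x = PP.real (V θ u)} with hSS
  have hne : SS.Nonempty := by
    obtain ⟨θ, hθ⟩ := p.nonempty
    exact ⟨_, θ, 0, hθ, rfl⟩
  have hbdd : BddAbove SS := ⟨1, by rintro _ ⟨θ, u, _, rfl⟩; exact measureReal_le_one⟩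
  obtain ⟨_, ⟨θs, u0, hθs, rfl⟩, hlt⟩ := exists_lt_of_lt_csSup hne
    (show sSup SS - δ / 2 < sSup SS by linarith)
  set u := u0 + p.n + 1 with hu
  have hlt' : sSup SS - δ / 2 < PP.real (V θs u) :=
    hlt.trans_le (measureReal_mono (hVmono θs (by omega)))
  set T := (range u).powerset.filter (fun F => r ≤ F.card) with hT
  set W : Finset ℕ → Set Om := fun F => {X | Gc D f u (θs, X) = F} with hW
  have hWm : ∀ F, MeasurableSet (W F) := fun F => (meas_Gc D f u θs fun G => G = F).setOf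
  have hsum : ∑ F ∈ T, PP.real (W F) ≤ 1 := by
    rw [← measureReal_biUnion_finset (fun F _ F' _ hne => Set.disjoint_left.mpr
      fun X h1 h2 => hne (h1.symm.trans h2)) fun F _ => hWm F]
    exact measureReal_le_one
  obtain ⟨θ0, hθ0, hgood⟩ := hr p.a T (fun F => PP.real (W F))
    (fun F hF => (Finset.mem_filter.mp hF).2) (fun _ _ => measureReal_nonneg) hsum
  have hu0 : (0 : ℝ) < u := by exact_mod_cast (by omega : 0 < u)
  set w' : ℝ := min (p.w / 2) (1 / 4 / u) with hw'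
  have hw'0 : 0 < w' := lt_min (by linarith [p.hw]) (by positivity)
  have hw'1 : w' ≤ p.w / 2 := min_le_left _ _
  have hw'2 : w' * u ≤ 1 / 4 := by
    have : w' ≤ 1 / 4 / u := min_le_right _ _
    rwa [le_div_iff₀ hu0] at this
  have hsub : ∀ θ, (⟨u, θs, θ0, w', hw'0⟩ : Cond).mem θ → p.mem θ := by
    intro θ hθ i
    by_cases hi : i < u
    · rw [(hθ i).1 hi]; exact hθs i
    · have := (hθ i).2 (not_lt.mp hi)
      refine ⟨fun h => absurd h (by omega), fun _ => ⟨hθ0.1.trans this.1, this.2.trans ?_⟩⟩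
      have := hθ0.2
      simp only
      linarith
  refine ⟨⟨u, θs, θ0, w', hw'0⟩, by simp only; omega, hsub, fun θ hθ => ?_⟩
  have hag : ∀ X : Om, Gc D f u (θ, X) = Gc D f u (θs, X) := fun X =>
    (Gc_congr (o := (θs, X)) (o' := (θ, X)) ⟨fun i hi => (hθ i).1 hi, fun _ _ _ _ => rfl⟩).symm
  set T' := T.filter (fun F => ¬ Spread F θ0) with hT'
  have hcover : {X | (θ, X) ∈ D ∧ Sol (Col θ) (f (θ, X))}
      ⊆ ((⋃ v, V θ v) \ V θ u) ∪ ⋃ F ∈ T', W F := by
    rintro X ⟨hD, hsol⟩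
    by_cases hX : X ∈ V θ u
    · right
      refine Set.mem_biUnion (x := Gc D f u (θ, X)) ?_ (hag X).symm
      simp only [hT', hT, Finset.coe_filter, Finset.mem_filter, Finset.mem_powerset,
        Set.mem_ofPred_eq]
      refine ⟨⟨fun m hm => mem_range.mpr (mem_Gc.mp hm).1, hX⟩, fun hs => ?_⟩
      exact not_sol hw'0.le hw'2 (fun i hi => (hθ i).2 hi) (fun x hx => (mem_Gc.mp hx).1) hs
        (fun x hx => (mem_Gc.mp hx).2 _ hD (Ag.refl _ _)) hsol
    · left
      obtain ⟨v, hv⟩ := hst.exists_card hD hsol.1 r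
      exact ⟨Set.mem_iUnion.mpr ⟨v, hv⟩, hX⟩
  have h1 : PP.real (⋃ v, V θ v) ≤ sSup SS := by
    have h2 := tendsto_measure_iUnion_atTop (μ := PP) (hVmono θ)
    have h3 := (ENNReal.tendsto_toReal (measure_ne_top PP _)).comp h2
    exact le_of_tendsto' h3 fun v => le_csSup hbdd ⟨θ, v, hsub θ hθ, rfl⟩
  have h2 : V θ u = V θs u := by ext X; simp only [hV, Set.mem_ofPred_eq, hag]
  have h3 : PP.real ((⋃ v, V θ v) \ V θ u) ≤ δ / 2 := by
    rw [measureReal_sdiff (Set.subset_iUnion _ u) (hVm θ u), h2]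
    linarith
  have h4 : PP.real (⋃ F ∈ T', W F) ≤ δ / 2 :=
    (measureReal_biUnion_finset_le _ _).trans
      (hgood T' (Finset.filter_subset _ _) fun F hF => (Finset.mem_filter.mp hF).2)
  calc _ ≤ _ := measureReal_mono hcover
    _ ≤ _ := measureReal_union_le _ _
    _ ≤ δ := by linarith

theorem exists_generic {ι : Type} [Countable ι] [Nonempty ι] (D : ι → Set OO) (f : ι → OO → Set ℕ)
    (hst : ∀ t, PosStable (D t) (f t)) :
    ∃ θ, ∀ t, PP {X | (θ, X) ∈ D t ∧ Sol (Col θ) (f t (θ, X))} = 0 := by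
  obtain ⟨e, he⟩ := exists_surjective_nat (ι × ℕ)
  choose nx h1 h2 h3 using fun (k : ℕ) (p : Cond) =>
    step p (hst (e k).1) (Nat.one_div_pos_of_nat (α := ℝ) (n := (e k).2))
  let sq : ℕ → Cond := fun k => Nat.rec ⟨0, fun _ => 0, 0, 1, one_pos⟩ (fun k p => nx k p) k
  have hsq : ∀ k, sq (k + 1) = nx k (sq k) := fun k => rfl
  have hn : ∀ k, k ≤ (sq k).n := by
    intro k
    induction k with
    | zero => exact Nat.zero_le _
    | succ k ih => have := h1 k (sq k); rw [hsq]; omega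
  have hdec : ∀ k d θ, (sq (k + d)).mem θ → (sq k).mem θ := by
    intro k d
    induction d with
    | zero => exact fun _ h => h
    | succ d ih => exact fun θ h => ih θ (h2 _ _ θ h)
  have hmem : ∀ k, (sq k).mem fun i => (sq (i + 1)).τ i := by
    intro k i
    obtain ⟨ζ, hζ⟩ := (sq (k + (i + 1))).nonempty
    have a1 := hdec k (i + 1) ζ hζ
    rw [add_comm] at hζ
    have a2 := hdec (i + 1) k ζ hζ
    have a3 : ζ i = (sq (i + 1)).τ i := (a2 i).1 (hn (i + 1))
    simp only [← a3]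
    exact a1 i
  refine ⟨fun i => (sq (i + 1)).τ i, fun t => ?_⟩
  rw [← measureReal_eq_zero_iff]
  refine le_antisymm (ge_of_tendsto' tendsto_one_div_add_atTop_nhds_zero_nat fun m => ?_)
    measureReal_nonneg
  obtain ⟨k, hk⟩ := he (t, m)
  have := h3 k (sq k) _ (hmem (k + 1))
  rw [hk] at this
  exact this

end Pool.Agent.P.MP_6fabb2_lc
end

-- part Pool.Agent.P.MP_6fabb2_lc.Main
section

/-! The model. -/

namespace Pool.Agent.P.MP_6fabb2_lc

open MeasureTheory Filter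

deriving instance Countable for Tm
deriving instance Countable for Bf

section unfold
variable {M : Type} [Zero M] [One M] [Add M] [Mul M] [LT M] (σ : ℕ → Set M) (ρ : ℕ → M)

lemma holds_eq (s t : Tm) : Holds σ (.feq s t) ρ ↔ tval ρ s = tval ρ t := Iff.rfl
lemma holds_lt (s t : Tm) : Holds σ (.flt s t) ρ ↔ tval ρ s < tval ρ t := Iff.rfl
lemma holds_mem (t : Tm) (k : ℕ) : Holds σ (.fmem t k) ρ ↔ tval ρ t ∈ σ k := Iff.rfl
lemma holds_not (φ : Bf) : Holds σ (.fnot φ) ρ ↔ ¬ Holds σ φ ρ := Iff.rfl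
lemma holds_and (φ ψ : Bf) : Holds σ (.fand φ ψ) ρ ↔ Holds σ φ ρ ∧ Holds σ ψ ρ := Iff.rfl
lemma holds_ball (i : ℕ) (t : Tm) (φ : Bf) : Holds σ (.fball i t φ) ρ ↔
    ∀ a : M, a < tval ρ t → Holds σ φ (Function.update ρ i a) := Iff.rfl
end unfold

lemma tval_dep (t : Tm) : ∃ b, ∀ ρ ρ' : ℕ → ℕ, (∀ k < b, ρ k = ρ' k) → tval ρ t = tval ρ' t := by
  induction t with
  | nvar i => exact ⟨i + 1, fun ρ ρ' h => h i (by omega)⟩
  | tzero => exact ⟨0, fun _ _ _ => rfl⟩
  | tone => exact ⟨0, fun _ _ _ => rfl⟩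
  | tadd s t hs ht =>
    obtain ⟨a, ha⟩ := hs
    obtain ⟨b, hb⟩ := ht
    refine ⟨a + b, fun ρ ρ' h => ?_⟩
    change tval ρ s + tval ρ t = tval ρ' s + tval ρ' t
    rw [ha ρ ρ' fun k hk => h k (by omega), hb ρ ρ' fun k hk => h k (by omega)]
  | tmul s t hs ht =>
    obtain ⟨a, ha⟩ := hs
    obtain ⟨b, hb⟩ := ht
    refine ⟨a + b, fun ρ ρ' h => ?_⟩
    change tval ρ s * tval ρ t = tval ρ' s * tval ρ' t
    rw [ha ρ ρ' fun k hk => h k (by omega), hb ρ ρ' fun k hk => h k (by omega)]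

lemma update_agree {b : ℕ} {ρ ρ' : ℕ → ℕ} (h : ∀ k < b, ρ k = ρ' k) (i a : ℕ) :
    ∀ k < b, Function.update ρ i a k = Function.update ρ' i a k := by
  intro k hk
  by_cases hki : k = i
  · subst hki; simp
  · rw [Function.update_of_ne hki, Function.update_of_ne hki, h k hk]

lemma holds_dep (φ : Bf) : ∃ b, ∀ (σ σ' : ℕ → Set ℕ) (ρ ρ' : ℕ → ℕ), (∀ k < b, σ k = σ' k) →
    (∀ k < b, ρ k = ρ' k) → (Holds σ φ ρ ↔ Holds σ' φ ρ') := by
  induction φ with
  | feq s t =>
    obtain ⟨a, ha⟩ := tval_dep s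
    obtain ⟨b, hb⟩ := tval_dep t
    refine ⟨a + b, fun σ σ' ρ ρ' _ h => ?_⟩
    rw [holds_eq, holds_eq, ha ρ ρ' fun k hk => h k (by omega), hb ρ ρ' fun k hk => h k (by omega)]
  | flt s t =>
    obtain ⟨a, ha⟩ := tval_dep s
    obtain ⟨b, hb⟩ := tval_dep t
    refine ⟨a + b, fun σ σ' ρ ρ' _ h => ?_⟩
    rw [holds_lt, holds_lt, ha ρ ρ' fun k hk => h k (by omega), hb ρ ρ' fun k hk => h k (by omega)]
  | fmem t i =>
    obtain ⟨a, ha⟩ := tval_dep t
    refine ⟨a + i + 1, fun σ σ' ρ ρ' h' h => ?_⟩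
    rw [holds_mem, holds_mem, ha ρ ρ' fun k hk => h k (by omega), h' i (by omega)]
  | fnot φ ih =>
    obtain ⟨a, ha⟩ := ih
    exact ⟨a, fun σ σ' ρ ρ' h' h => not_congr (ha σ σ' ρ ρ' h' h)⟩
  | fand φ ψ h1 h2 =>
    obtain ⟨a, ha⟩ := h1
    obtain ⟨b, hb⟩ := h2
    exact ⟨a + b, fun σ σ' ρ ρ' h' h => and_congr
      (ha σ σ' ρ ρ' (fun k hk => h' k (by omega)) fun k hk => h k (by omega))
      (hb σ σ' ρ ρ' (fun k hk => h' k (by omega)) fun k hk => h k (by omega))⟩
  | fball i t φ ih =>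
    obtain ⟨a, ha⟩ := tval_dep t
    obtain ⟨b, hb⟩ := ih
    refine ⟨a + b, fun σ σ' ρ ρ' h' h => ?_⟩
    rw [holds_ball, holds_ball, ha ρ ρ' fun k hk => h k (by omega)]
    exact forall_congr' fun x => imp_congr_right fun _ => hb _ _ _ _ (fun k hk => h' k (by omega))
      (update_agree (fun k hk => h k (by omega)) i x)

lemma holds_stable {α : Type} {l : Filter α} {g : α → ℕ → Set ℕ} {g0 : ℕ → Set ℕ}
    (hg : ∀ k n, ∀ᶠ o in l, n ∈ g o k ↔ n ∈ g0 k) (φ : Bf) :
    ∀ ρ : ℕ → ℕ, ∀ᶠ o in l, Holds (g o) φ ρ ↔ Holds g0 φ ρ := by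
  induction φ with
  | feq s t => exact fun ρ => Eventually.of_forall fun _ => Iff.rfl
  | flt s t => exact fun ρ => Eventually.of_forall fun _ => Iff.rfl
  | fmem t i => exact fun ρ => hg i _
  | fnot φ ih => exact fun ρ => (ih ρ).mono fun _ h => not_congr h
  | fand φ ψ h1 h2 => exact fun ρ => ((h1 ρ).and (h2 ρ)).mono fun _ h => and_congr h.1 h.2
  | fball i t φ ih =>
    intro ρ
    have h : ∀ᶠ o in l, ∀ a ∈ Finset.range (tval ρ t),
        (Holds (g o) φ (Function.update ρ i a) ↔ Holds g0 φ (Function.update ρ i a)) := by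
      simp only [Filter.eventually_all_finset]
      exact fun a _ => ih _
    filter_upwards [h] with o ho
    exact forall_congr' fun a => imp_congr_right fun ha => ho a (Finset.mem_range.mpr ha)

/-- names for the members of the model -/
inductive Nm : Type
  | base : Nm
  | ca : Bf → Bf → ℕ → ℕ → ℕ → List ℕ → Nm → Nm
  | put : ℕ → Nm → Nm → Nm
  | rrt : ℕ → Nm → Nm

deriving instance Countable for Nm

instance : Nonempty Nm := ⟨.base⟩

def rl (l : List ℕ) : ℕ → ℕ := fun k => l.getD k 0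

noncomputable def ev : Nm → OO → ℕ → Set ℕ
  | .base, o => fun _ => Col o.1
  | .ca θ _ i j _ l t, o => fun _ =>
      {n | ∃ m, Holds (ev t o) θ (Function.update (Function.update (rl l) i n) j m)}
  | .put k t1 t2, o => Function.update (ev t1 o) k (ev t2 o 0)
  | .rrt j t, o => fun _ => Out (ev t o 0) (fun s => o.2 (j, s))

def dom : Nm → OO → Prop
  | .base, _ => True
  | .ca θ η i j j' l t, o => dom t o ∧
      ∀ n, (∃ m, Holds (ev t o) θ (Function.update (Function.update (rl l) i n) j m)) ↔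
        ∀ m, Holds (ev t o) η (Function.update (Function.update (rl l) i n) j' m)
  | .put _ t1 t2, o => dom t1 o ∧ dom t2 o
  | .rrt j t, o => dom t o ∧ Valid (ev t o 0) ∧ ∀ s, ∃ A, Run (ev t o 0) (fun s => o.2 (j, s)) s A

def cb : Nm → ℕ
  | .base => 0
  | .ca _ _ _ _ _ _ t => cb t
  | .put _ t1 t2 => cb t1 + cb t2
  | .rrt j t => cb t + j + 1

lemma ev_inv (t : Nm) (o o' : OO) (h1 : o.1 = o'.1) :
    (∀ j < cb t, ∀ s, o.2 (j, s) = o'.2 (j, s)) → ev t o = ev t o' ∧ (dom t o ↔ dom t o') := by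
  induction t with
  | base => intro _; simp only [ev, dom, h1, and_self]
  | ca θ η i j j' l t ih =>
    intro h
    obtain ⟨a, b⟩ := ih h
    simp only [ev, dom, a, b, and_self]
  | put k t1 t2 i1 i2 =>
    intro h
    obtain ⟨a, b⟩ := i1 fun j hj => h j (by simp only [cb]; omega)
    obtain ⟨c, d⟩ := i2 fun j hj => h j (by simp only [cb]; omega)
    simp only [ev, dom, a, b, c, d, and_self]
  | rrt j t ih =>
    intro h
    obtain ⟨a, b⟩ := ih fun j hj => h j (by simp only [cb]; omega)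
    have c : (fun s => o.2 (j, s)) = fun s => o'.2 (j, s) :=
      funext fun s => h j (by simp only [cb]; omega) s
    simp only [ev, dom, a, b, c, and_self]

/-- neighbourhood filter inside `D` -/
def nb (D : Set OO) (o : OO) : Filter OO where
  sets := {S | ∃ u, ∀ o' ∈ D, Ag u o o' → o' ∈ S}
  univ_sets := ⟨0, fun _ _ _ => trivial⟩
  sets_of_superset := fun ⟨u, hu⟩ h => ⟨u, fun o' ho ha => h (hu o' ho ha)⟩
  inter_sets := fun ⟨u, hu⟩ ⟨v, hv⟩ => ⟨u + v, fun o' ho ha =>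
    ⟨hu o' ho (ha.mono (by omega)), hv o' ho (ha.mono (by omega))⟩⟩

lemma ev_nb {D : Set OO} {o : OO} {P : OO → Prop} :
    (∀ᶠ o' in nb D o, P o') ↔ ∃ u, ∀ o' ∈ D, Ag u o o' → P o' := Iff.rfl

lemma le_spair (x z : ℕ) : x ≤ spair x z := by unfold spair; omega

theorem ev_stable (t : Nm) (D : Set OO) (o : OO) (ho : o ∈ D) : (∀ o ∈ D, dom t o) →
    ∀ k n, ∀ᶠ o' in nb D o, n ∈ ev t o' k ↔ n ∈ ev t o k := by
  have hD : ∀ᶠ o' in nb D o, o' ∈ D := ev_nb.2 ⟨0, fun _ h _ => h⟩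
  induction t with
  | base =>
    intro _ k n
    refine ev_nb.2 ⟨n, fun o' _ ha => ?_⟩
    have key : ∀ x ≤ n, ph o'.1 x = ph o.1 x := fun x hx =>
      Finset.sum_congr rfl fun i hi => ha.1 i (lt_of_lt_of_le (Finset.mem_range.mp hi) hx)
    constructor
    · rintro ⟨x, hx⟩
      exact ⟨x, by rw [← key x (hx ▸ le_spair _ _)]; exact hx⟩
    · rintro ⟨x, hx⟩
      exact ⟨x, by rw [key x (hx ▸ le_spair _ _)]; exact hx⟩
  | ca θ η i j j' l t ih =>
    intro h k n
    have h1 := ih fun o ho => (h o ho).1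
    by_cases hn : ∃ m, Holds (ev t o) θ (Function.update (Function.update (rl l) i n) j m)
    · obtain ⟨m, hm⟩ := hn
      filter_upwards [holds_stable h1 θ (Function.update (Function.update (rl l) i n) j m)]
        with o' h2
      exact iff_of_true ⟨m, h2.2 hm⟩ ⟨m, hm⟩
    · have h3 := ((h o ho).2 n).not.1 hn
      push Not at h3
      obtain ⟨m, hm⟩ := h3
      filter_upwards [holds_stable h1 η (Function.update (Function.update (rl l) i n) j' m), hD]
        with o' h2 h4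
      exact iff_of_false (fun hc => hm (h2.1 (((h o' h4).2 n).1 hc m))) hn
  | put k' t1 t2 i1 i2 =>
    intro h k n
    by_cases hk : k = k'
    · subst hk
      simp only [ev, Function.update_self]
      exact i2 (fun o ho => (h o ho).2) 0 n
    · simp only [ev, Function.update_of_ne hk]
      exact i1 (fun o ho => (h o ho).1) k n
  | rrt j t ih =>
    intro h k n
    have h1 := ih (fun o ho => (h o ho).1) 0
    obtain ⟨A, hA⟩ := (h o ho).2.2 (n + 1)
    have h2 := run_stable h1 (hD.mono fun o' ho' => (h o' ho').2.1) (h o ho).2.1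
      (Y := fun o' s => o'.2 (j, s)) (Y0 := fun s => o.2 (j, s))
      (fun s => ev_nb.2 ⟨j + s + 1, fun o' _ ha => ha.2 j (by omega) s (by omega)⟩) _ A hA
    filter_upwards [h2] with o' h3
    exact (mem_out_iff h3).trans (mem_out_iff hA).symm

lemma posStable (t : Nm) : PosStable {o | dom t o} (fun o => ev t o 0) := by
  intro o ho m hm
  obtain ⟨u, hu⟩ := ev_nb.1 (ev_stable t {o | dom t o} o ho (fun _ h => h) 0 m)
  exact ⟨u, fun o' h1 h2 => (hu o' h1 h2).2 hm⟩

/-- measurable hull of a name -/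
def hull (t : Nm) (θ : ℕ → ℝ) (X : Om) : Set ℕ :=
  {m | ∃ u, m ∈ Gc {o | dom t o} (fun o => ev t o 0) u (θ, X)}

lemma hull_eq {t : Nm} {θ : ℕ → ℝ} {X : Om} (h : dom t (θ, X)) : hull t θ X = ev t (θ, X) 0 := by
  ext m
  exact ⟨fun ⟨u, hu⟩ => (mem_Gc.1 hu).2 _ h (Ag.refl _ _), fun hm => (posStable t).exists_mem h hm⟩

lemma hull_meas (t : Nm) (θ : ℕ → ℝ) (n : ℕ) : Measurable fun X => n ∈ hull t θ X :=
  Measurable.exists fun u => meas_Gc _ _ u θ fun G => n ∈ G

lemma hull_sub (t : Nm) (θ : ℕ → ℝ) (X X' : Om) (h : ∀ j < cb t, ∀ s, X (j, s) = X' (j, s)) :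
    hull t θ X ⊆ hull t θ X' := by
  rintro m ⟨u, hu⟩
  rw [mem_Gc] at hu
  refine ⟨u, mem_Gc.2 ⟨hu.1, fun o' ho' ha => ?_⟩⟩
  obtain ⟨e1, e2⟩ := ev_inv t o' (o'.1, fun p => if p.1 < cb t then o'.2 p else X p) rfl
    fun j hj s => (if_pos hj).symm
  have := hu.2 _ (e2.1 ho') ⟨ha.1, fun j hj s hs => ?_⟩
  · simpa only [e1] using this
  · simp only
    split_ifs with h1
    · rw [ha.2 j hj s hs, h j h1 s]
    · rfl

lemma rrt_ae (t : Nm) (θ : ℕ → ℝ) :
    PP {X | dom t (θ, X) ∧ Valid (ev t (θ, X) 0) ∧ ∀ j, ¬ dom (.rrt j t) (θ, X)} = 0 := by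
  refine null_of_le fun j0 => ⟨j0 + cb t, by omega, le_trans (measure_mono ?_)
    (fail_le (hull_meas t θ) (j0 + cb t) fun X s y => ?_)⟩
  · rintro X ⟨h1, h2, h3⟩
    simp only [Set.mem_ofPred_eq, hull_eq h1]
    exact ⟨h2, fun h => h3 (j0 + cb t) ⟨h1, h2, h⟩⟩
  · have h : ∀ j < cb t, ∀ s', Function.update X (j0 + cb t, s) y (j, s') = X (j, s') :=
      fun j hj s' => Function.update_of_ne (by simp only [ne_eq, Prod.mk.injEq]; omega) _ _
    exact Set.Subset.antisymm (hull_sub t θ _ _ h) (hull_sub t θ _ _ fun j hj s' => (h j hj s').symm)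

lemma exists_env {o : OO} {σ : ℕ → Set ℕ} (hσ : ∀ k, ∃ t, dom t o ∧ σ k = ev t o 0) (b : ℕ) :
    ∃ t, dom t o ∧ ∀ k < b, σ k = ev t o k := by
  induction b with
  | zero => exact ⟨.base, trivial, fun _ h => absurd h (by omega)⟩
  | succ b ih =>
    obtain ⟨t1, h1, h2⟩ := ih
    obtain ⟨t2, h3, h4⟩ := hσ b
    refine ⟨.put b t1 t2, ⟨h1, h3⟩, fun k hk => ?_⟩
    by_cases hkb : k = b
    · subst hkb; simp only [ev, Function.update_self, h4]
    · simp only [ev, Function.update_of_ne hkb, h2 k (by omega)]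

theorem main : ∃ S : Set (Set ℕ), IsRCA0 S ∧ RRT22 S ∧ ¬ HT22 S := by
  obtain ⟨θ, hθ⟩ := exists_generic (fun t : Nm => {o | dom t o}) (fun t o => ev t o 0) posStable
  have hae : ∀ᵐ X ∂PP, ∀ t : Nm, ¬ (dom t (θ, X) ∧ Sol (Col θ) (ev t (θ, X) 0)) ∧
      ¬ (dom t (θ, X) ∧ Valid (ev t (θ, X) 0) ∧ ∀ j, ¬ dom (.rrt j t) (θ, X)) := by
    rw [ae_all_iff]
    exact fun t => (measure_eq_zero_iff_ae_notMem.1 (hθ t)).and
      (measure_eq_zero_iff_ae_notMem.1 (rrt_ae t θ))
  obtain ⟨X, hX⟩ := hae.exists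
  refine ⟨{A | ∃ t, dom t (θ, X) ∧ A = ev t (θ, X) 0}, ?_, ?_, ?_⟩
  · refine ⟨⟨_, .base, trivial, rfl⟩, fun n => by omega, fun m n => by omega, fun m => by omega,
      fun m n => by omega, fun m => by omega, fun m n => Nat.mul_succ m n, fun m => by omega,
      fun m n => by omega, fun φ i j ρ σ _ h0 hs n => Nat.rec h0 hs n, ?_⟩
    intro φ η i j j' ρ σ hσ h
    obtain ⟨a, ha⟩ := holds_dep φ
    obtain ⟨b, hb⟩ := holds_dep η
    obtain ⟨t, ht, ht'⟩ := exists_env hσ (a + b)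
    have hρ : ∀ k < a + b, ρ k = rl ((List.range (a + b)).map ρ) k := by
      intro k hk
      simp [rl, List.getD_eq_getElem?_getD, hk]
    have e1 : ∀ n m, Holds σ φ (Function.update (Function.update ρ i n) j m) ↔
        Holds (ev t (θ, X)) φ
          (Function.update (Function.update (rl ((List.range (a + b)).map ρ)) i n) j m) :=
      fun n m => ha _ _ _ _ (fun k hk => ht' k (by omega))
        (update_agree (update_agree (fun k hk => hρ k (by omega)) i n) j m)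
    have e2 : ∀ n m, Holds σ η (Function.update (Function.update ρ i n) j' m) ↔
        Holds (ev t (θ, X)) η
          (Function.update (Function.update (rl ((List.range (a + b)).map ρ)) i n) j' m) :=
      fun n m => hb _ _ _ _ (fun k hk => ht' k (by omega))
        (update_agree (update_agree (fun k hk => hρ k (by omega)) i n) j' m)
    simp only [e1, e2] at h ⊢
    exact ⟨.ca φ η i j j' ((List.range (a + b)).map ρ) t, ⟨ht, h⟩, rfl⟩
  · rintro F ⟨t, ht, rfl⟩ h1 h2
    have h3 := (hX t).2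
    push Not at h3
    obtain ⟨j, hj⟩ := h3 ht ⟨h1, h2⟩
    exact ⟨_, ⟨.rrt j t, hj, rfl⟩, out_infinite hj.2.2, out_rainbow hj.2.2⟩
  · intro h
    obtain ⟨H, ⟨t, ht, rfl⟩, h1⟩ := h (Col θ) ⟨.base, trivial, rfl⟩
      (fun x => ⟨_, mem_Col.2 rfl, fun z hz => mem_Col.1 hz⟩)
      (fun x z hz => by rw [mem_Col.1 hz]; split_ifs <;> simp)
    exact (hX t).1 ⟨ht, h1⟩

end Pool.Agent.P.MP_6fabb2_lc
end
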